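import Pool.Agent.helper26.EC.SpecW

/-! # Project EC: row DPR (the constant of the switched sets) -/

set_option autoImplicit false

namespace Pool.Agent.EC

open Finset

theorem DPR_cons (r : ℕ) (s : Fin (r + 1) → Finset ℕ) (f : (Fin (r + 1) → ℕ) → ℕ) :
    ∑ j ∈ Fintype.piFinset s, f j =
      ∑ a ∈ s 0, ∑ j' ∈ Fintype.piFinset (fun i => s i.succ), f (Fin.cons a j') := by
  rw [← Finset.sum_product']
  refine Finset.sum_nbij' (fun j => (j 0, fun i => j i.succ)) (fun p => Fin.cons p.1 p.2) ?_ ?_ ?_ ?_ ?_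
  · intro j hj
    rw [Fintype.mem_piFinset] at hj
    rw [Finset.mem_product, Fintype.mem_piFinset]
    exact ⟨hj 0, fun i => hj i.succ⟩
  · intro p hp
    rw [Finset.mem_product, Fintype.mem_piFinset] at hp
    rw [Fintype.mem_piFinset]
    intro i
    refine Fin.cases ?_ ?_ i
    · exact hp.1
    · exact hp.2
  · intro j _
    exact Fin.cons_self_tail j
  · intro p _
    simp
  · intro j _
    congr 1
    exact (Fin.cons_self_tail j).symm

/-- the index set without the condition on the sum -/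
def DPR_P (b : Bool) (r : ℕ) : Finset (Fin r → ℕ) :=
  Fintype.piFinset fun i : Fin r => if b = true ∧ i.val = 0 then Ico 30 101 else Ico 100 481

theorem DPR_Psucc (b : Bool) (r : ℕ) (f : (Fin (r + 1) → ℕ) → ℕ) :
    ∑ j ∈ DPR_P b (r + 1), f j =
      ∑ a ∈ (if b = true then Ico 30 101 else Ico 100 481), ∑ j' ∈ DPR_P false r, f (Fin.cons a j') := by
  unfold DPR_P
  rw [DPR_cons]
  simp

theorem DPR_mI (a b j : ℕ) : mI a b j = if a ≤ j ∧ j < b then mN j else 0 := by
  unfold mI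
  by_cases h : a ≤ j ∧ j < b
  · rw [if_pos h, if_pos]
    rw [Bool.and_eq_true]
    exact ⟨Nat.ble_eq_true_of_le h.1, by simpa using h.2⟩
  · rw [if_neg h, if_neg]
    intro h'
    apply h
    rw [Bool.and_eq_true] at h'
    exact ⟨Nat.le_of_ble_eq_true h'.1, by simpa using h'.2⟩

theorem DPR_level (b : Bool) (r : ℕ) (hr : b = true → r ≠ 0) (σ : ℕ) :
    (∑ j ∈ DPR_P b r, if ∑ i, j i = σ then ∏ i, mN (j i) else 0) = cN b r σ := by
  induction r generalizing b σ with
  | zero =>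
    cases b
    · simp [DPR_P, cN, eq_comm]
    · exact absurd rfl (hr rfl)
  | succ r ih =>
    rw [DPR_Psucc, cN]
    have e1 : ∀ a : ℕ, (∑ j' ∈ DPR_P false r, if ∑ i, (Fin.cons a j' : Fin (r + 1) → ℕ) i = σ then
        ∏ i, mN ((Fin.cons a j' : Fin (r + 1) → ℕ) i) else 0) =
          if a ≤ σ then cN false r (σ - a) * mN a else 0 := by
      intro a
      by_cases h : a ≤ σ
      · rw [if_pos h, ← ih false (by simp) (σ - a), Finset.sum_mul]
        refine Finset.sum_congr rfl fun j' _ => ?_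
        rw [Fin.sum_univ_succ, Fin.prod_univ_succ]
        simp only [Fin.cons_zero, Fin.cons_succ]
        by_cases h2 : ∑ i, j' i = σ - a
        · rw [if_pos h2, if_pos (by omega)]; ring
        · rw [if_neg h2, if_neg (by omega), zero_mul]
      · rw [if_neg h]
        refine Finset.sum_eq_zero fun j' _ => ?_
        rw [if_neg]
        rw [Fin.sum_univ_succ]
        simp only [Fin.cons_zero, Fin.cons_succ]
        omega
    rw [Finset.sum_congr rfl fun a _ => e1 a]
    have key : ∀ u v : ℕ, (∑ a ∈ Ico u v, if a ≤ σ then cN false r (σ - a) * mN a else 0) =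
        ∑ i ∈ range (σ + 1), cN false r (σ - i) * mI u v i := by
      intro u v
      rw [← Finset.sum_filter]
      have e2 : ∀ i, cN false r (σ - i) * mI u v i = if u ≤ i ∧ i < v then cN false r (σ - i) * mN i else 0 := by
        intro i
        rw [DPR_mI]
        split_ifs <;> simp
      rw [Finset.sum_congr rfl fun i _ => e2 i, ← Finset.sum_filter]
      refine Finset.sum_congr ?_ fun _ _ => rfl
      ext i
      simp only [Finset.mem_filter, Finset.mem_Ico, Finset.mem_range]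
      omega
    cases b
    · simpa using key 100 481
    · simpa using key 30 101

theorem DPR_sum (b : Bool) (r : ℕ) (hr : b = true → r ≠ 0) (F : ℕ → ℕ) :
    ∑ j ∈ JJ b r, F (∑ i, j i) * ∏ i, mN (j i) = ∑ σ ∈ range 862, cN b r σ * F σ := by
  have h1 : ∀ σ, cN b r σ * F σ =
      ∑ j ∈ DPR_P b r, if ∑ i, j i = σ then F (∑ i, j i) * ∏ i, mN (j i) else 0 := by
    intro σ
    rw [← DPR_level b r hr σ, Finset.sum_mul]
    refine Finset.sum_congr rfl fun j _ => ?_
    by_cases h : ∑ i, j i = σ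
    · rw [if_pos h, if_pos h, h]; ring
    · rw [if_neg h, if_neg h, zero_mul]
  rw [Finset.sum_congr rfl fun σ _ => h1 σ, Finset.sum_comm]
  unfold JJ
  rw [Finset.sum_filter]
  refine Finset.sum_congr rfl fun j _ => ?_
  rw [Finset.sum_ite_eq]
  by_cases h : ∑ i, j i ≤ 861
  · rw [if_pos h, if_pos (Finset.mem_range.2 (by omega))]
  · rw [if_neg h, if_neg (by rw [Finset.mem_range]; omega)]

theorem DPR_div (a b : ℕ) (hb : 0 < b) : (a : ℝ) / b ≤ ((a / b + 1 : ℕ) : ℝ) := by
  have hb' : (0 : ℝ) < b := by exact_mod_cast hb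
  rw [div_le_iff₀ hb']
  have h := (Nat.lt_mul_div_succ a hb).le
  have h2 : ((a : ℕ) : ℝ) ≤ ((b * (a / b + 1) : ℕ) : ℝ) := by exact_mod_cast h
  rw [Nat.cast_mul] at h2
  linarith [mul_comm (b : ℝ) ((a / b + 1 : ℕ) : ℝ)]

theorem DPR_log (j : ℕ) (hj : 1 ≤ j) : Real.log (((j : ℝ) + 1) / j) ≤ (mN j : ℝ) / 2 ^ 30 := by
  have hj' : (0 : ℝ) < j := by exact_mod_cast hj
  have h1 : Real.log (((j : ℝ) + 1) / j) ≤ (((j : ℝ) + 1) / j - (((j : ℝ) + 1) / j)⁻¹) / 2 := by
    rw [← Real.sinh_log (by positivity)]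
    refine Real.self_le_sinh_iff.2 (Real.log_nonneg ?_)
    rw [le_div_iff₀ hj']; linarith
  refine h1.trans ?_
  have h2 := DPR_div (2 ^ 30 * (2 * j + 1)) (2 * j * (j + 1)) (by positivity)
  rw [le_div_iff₀ (by positivity)]
  have h3 : mN j = (2 ^ 30 * (2 * j + 1)) / (2 * j * (j + 1)) + 1 := rfl
  rw [h3]
  refine le_trans (le_of_eq ?_) h2
  push_cast
  field_simp
  ring

theorem DPR_om (b : Bool) (r σ : ℕ) (hr : 4 ≤ r) (hr9 : r ≤ 9) (hσ : σ ≤ 861) :
    om b r σ * ph r σ ≤ (wN b r σ : ℝ) / 10 ^ 9 := by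
  have hp : (0 : ℝ) < 962 - (σ : ℝ) - r := by
    have h1 : (σ : ℝ) ≤ 861 := by exact_mod_cast hσ
    have h2 : (r : ℝ) ≤ 9 := by exact_mod_cast hr9
    linarith
  have hc : ((962 - σ - r : ℕ) : ℝ) = 962 - (σ : ℝ) - r := by
    rw [Nat.cast_sub (by omega), Nat.cast_sub (by omega)]; norm_num
  have key : ∀ x : ℕ, 0 < x → (1 : ℝ) / x * (962 / (962 - (σ : ℝ) - r)) ≤
      (((962 * 10 ^ 9) / (x * (962 - σ - r)) + 1 : ℕ) : ℝ) / 10 ^ 9 := by
    intro x hx
    have h := DPR_div (962 * 10 ^ 9) (x * (962 - σ - r)) (Nat.mul_pos hx (by omega))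
    rw [le_div_iff₀ (by positivity)]
    refine le_trans (le_of_eq ?_) h
    rw [Nat.cast_mul, Nat.cast_mul, hc]
    have hx' : (0 : ℝ) < x := by exact_mod_cast hx
    push_cast
    field_simp
    norm_num
  unfold om ph wN
  cases b
  · simp only [Bool.false_eq_true, if_false]
    by_cases h : σ ≤ 481
    · have hb : Nat.ble σ 481 = true := Nat.ble_eq_true_of_le h
      simp only [h, hb, if_true]
      exact key _ (Nat.factorial_pos _)
    · have hb : ¬ (Nat.ble σ 481 = true) := fun h' => h (Nat.le_of_ble_eq_true h')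
      simp only [h, hb, if_false]
      exact key _ (Nat.factorial_pos _)
  · simp only [if_true]
    by_cases h : σ ≤ 481
    · have hb : Nat.ble σ 481 = true := Nat.ble_eq_true_of_le h
      simp only [h, hb, if_true]
      have := key (2 * (r - 1).factorial) (Nat.mul_pos (by norm_num) (Nat.factorial_pos _))
      rw [Nat.cast_mul] at this
      refine le_trans (le_of_eq ?_) this
      push_cast
      have hf : (0 : ℝ) < ((r - 1).factorial : ℝ) := by exact_mod_cast Nat.factorial_pos _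
      field_simp
    · have hb : ¬ (Nat.ble σ 481 = true) := fun h' => h (Nat.le_of_ble_eq_true h')
      simp only [h, hb, if_false]
      have := key (2 * r.factorial) (Nat.mul_pos (by norm_num) (Nat.factorial_pos _))
      rw [Nat.cast_mul] at this
      refine le_trans (le_of_eq ?_) this
      push_cast
      have hf : (0 : ℝ) < (r.factorial : ℝ) := by exact_mod_cast Nat.factorial_pos _
      field_simp

theorem DPR_one (h1 : DPN_stmt) (b : Bool) (r : ℕ) (hr : 4 ≤ r) (hr9 : r ≤ 9) :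
    ∑ j ∈ JJ b r, om b r (∑ i, j i) * ph r (∑ i, j i) * ∏ i, Real.log (((j i : ℝ) + 1) / j i) ≤
      ((cof b r * 2 ^ (30 * (9 - r)) : ℕ) : ℝ) / (2 ^ 270 * 10 ^ 9) := by
  have h2 : ∀ j ∈ JJ b r, om b r (∑ i, j i) * ph r (∑ i, j i) * ∏ i, Real.log (((j i : ℝ) + 1) / j i) ≤
      ((wN b r (∑ i, j i) * ∏ i, mN (j i) : ℕ) : ℝ) / (10 ^ 9 * (2 ^ 30) ^ r) := by
    intro j hj
    unfold JJ at hj
    rw [Finset.mem_filter, Fintype.mem_piFinset] at hj
    have hj1 : ∀ i, 1 ≤ j i := by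
      intro i
      have := hj.1 i
      split_ifs at this <;> simp only [Finset.mem_Ico] at this <;> omega
    have h3 := DPR_om b r (∑ i, j i) hr hr9 hj.2
    have h4 : ∏ i, Real.log (((j i : ℝ) + 1) / j i) ≤ ∏ i, ((mN (j i) : ℝ) / 2 ^ 30) := by
      refine Finset.prod_le_prod (fun i _ => ?_) fun i _ => DPR_log _ (hj1 i)
      refine Real.log_nonneg ?_
      have : (0 : ℝ) < j i := by exact_mod_cast hj1 i
      rw [le_div_iff₀ this]; linarith
    have h5 : 0 ≤ ∏ i, Real.log (((j i : ℝ) + 1) / j i) := by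
      refine Finset.prod_nonneg fun i _ => Real.log_nonneg ?_
      have : (0 : ℝ) < j i := by exact_mod_cast hj1 i
      rw [le_div_iff₀ this]; linarith
    refine (mul_le_mul h3 h4 h5 (by positivity)).trans (le_of_eq ?_)
    rw [Finset.prod_div_distrib, Finset.prod_const, Finset.card_univ, Fintype.card_fin]
    push_cast
    field_simp
  refine (Finset.sum_le_sum h2).trans (le_of_eq ?_)
  rw [← Finset.sum_div, ← Nat.cast_sum, DPR_sum b r (fun _ => by omega) (fun σ => wN b r σ), ← h1 b r hr hr9]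
  have e : (2 : ℝ) ^ 270 = (2 ^ 30) ^ r * 2 ^ (30 * (9 - r)) := by
    rw [← pow_mul, ← pow_add]
    congr 1
    omega
  rw [e, Nat.cast_mul, Nat.cast_pow]
  push_cast
  field_simp

theorem DPR (h1 : DPN_stmt) (h2 : KR2_stmt) : DPR_stmt := by
  unfold DPR_stmt
  have h3 : ∑ b : Bool, ∑ r ∈ Icc 4 9, ∑ j ∈ JJ b r,
      om b r (∑ i, j i) * ph r (∑ i, j i) * ∏ i, Real.log (((j i : ℝ) + 1) / j i) ≤
      ∑ b : Bool, ∑ r ∈ Icc 4 9, ((cof b r * 2 ^ (30 * (9 - r)) : ℕ) : ℝ) / (2 ^ 270 * 10 ^ 9) := by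
    refine Finset.sum_le_sum fun b _ => Finset.sum_le_sum fun r hr => ?_
    rw [Finset.mem_Icc] at hr
    exact DPR_one h1 b r hr.1 hr.2
  refine h3.trans ?_
  simp only [← Finset.sum_div, ← Nat.cast_sum]
  unfold KR2_stmt at h2
  rw [div_le_iff₀ (by positivity)]
  have h4 : ((∑ b : Bool, ∑ r ∈ Icc 4 9, cof b r * 2 ^ (30 * (9 - r)) : ℕ) : ℝ) ≤
      ((435 * 10 ^ 6 * 2 ^ 270 : ℕ) : ℝ) := by exact_mod_cast h2
  refine h4.trans (le_of_eq ?_)
  push_cast
  ring

end Pool.Agent.EC
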