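import Pool.Agent.helper26.EC.SpecW

/-! # Project EC: row DPN (the coefficient is the sum over the cells) -/

set_option autoImplicit false

namespace Pool.Agent.EC

open Finset

theorem DPN_Bs : Bs = 2 ^ 400 := rfl

theorem DPN_bld0 (n : ℕ) : bld (cN false 0) (n + 1) = 1 := by
  induction n with
  | zero => simp [bld, cN]
  | succ n ih => rw [bld, ih]; simp [cN]

theorem DPN_mI0 {a b j : ℕ} (h : ¬ (a ≤ j ∧ j < b)) : mI a b j = 0 := by
  unfold mI
  rw [if_neg]
  intro h'
  apply h
  rw [Bool.and_eq_true] at h'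
  exact ⟨Nat.le_of_ble_eq_true h'.1, by simpa using h'.2⟩

theorem DPN_sumI (a b k : ℕ) : ∑ i ∈ range k, mI a b i ≤ ∑ i ∈ range b, mI a b i := by
  rcases le_total k b with h | h
  · exact Finset.sum_le_sum_of_subset (Finset.range_subset_range.2 h)
  · rw [← Finset.sum_subset (Finset.range_subset_range.2 h)]
    intro i _ h2
    apply DPN_mI0
    simp only [Finset.mem_range, not_lt] at h2
    omega

set_option maxRecDepth 100000 in
theorem DPN_S1 : (∑ i ∈ range 481, mI 100 481 i) ≤ 2 ^ 31 := by decide +kernel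

set_option maxRecDepth 100000 in
theorem DPN_S2 : (∑ i ∈ range 101, mI 30 101 i) ≤ 2 ^ 31 := by decide +kernel

theorem DPN_T (b : Bool) (k : ℕ) :
    ∑ i ∈ range k, (if b = true then mI 30 101 i else mI 100 481 i) ≤ 2 ^ 31 := by
  cases b
  · simpa using (DPN_sumI 100 481 k).trans DPN_S1
  · simpa using (DPN_sumI 30 101 k).trans DPN_S2

theorem DPN_cN (b : Bool) (r σ : ℕ) : cN b r σ ≤ (2 ^ 31) ^ r := by
  induction r generalizing b σ with
  | zero => rw [cN]; split_ifs <;> simp
  | succ r ih =>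
    rw [cN, pow_succ]
    calc _ ≤ ∑ i ∈ range (σ + 1), (2 ^ 31) ^ r * (if b = true then mI 30 101 i else mI 100 481 i) :=
          Finset.sum_le_sum fun i _ => Nat.mul_le_mul_right _ (ih false _)
      _ = (2 ^ 31) ^ r * ∑ i ∈ range (σ + 1), (if b = true then mI 30 101 i else mI 100 481 i) := by
          rw [Finset.mul_sum]
      _ ≤ _ := Nat.mul_le_mul_left _ (DPN_T b _)

theorem DPN_cN9 (b : Bool) (r σ : ℕ) (hr : r ≤ 9) : cN b r σ ≤ 2 ^ 279 := by
  refine (DPN_cN b r σ).trans ?_
  rw [← pow_mul]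
  exact Nat.pow_le_pow_right (by norm_num) (by omega)

theorem DPN_conv (b : Bool) (r k : ℕ) :
    (∑ i ∈ range (k + 1), cN false r i * (if b = true then mI 30 101 (k - i) else mI 100 481 (k - i))) =
      cN b (r + 1) k := by
  rw [cN, ← Finset.sum_range_reflect]
  refine Finset.sum_congr rfl fun i hi => ?_
  rw [Finset.mem_range] at hi
  have h1 : k + 1 - 1 - i = k - i := by omega
  have h2 : k - (k - i) = i := by omega
  rw [h1, h2]

theorem DPN_lt {x : ℕ} (h : x ≤ 2 ^ 279) : x < Bs := by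
  rw [DPN_Bs]
  exact lt_of_le_of_lt h (Nat.pow_lt_pow_right (by norm_num) (by norm_num))

theorem DPN_PW (h1 : KRN_stmt) (r : ℕ) (hr : r ≤ 9) : PW r = bld (cN false r) 862 := by
  induction r with
  | zero => rw [PW, DPN_bld0]
  | succ r ih =>
    rw [PW, ih (by omega), PY]
    have e : ∀ k, (∑ i ∈ range (k + 1), cN false r i * mI 100 481 (k - i)) = cN false (r + 1) k := by
      intro k
      have := DPN_conv false r k
      simpa using this
    rw [h1.1 (cN false r) (mI 100 481) 862]
    · simp only [e]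
    · intro k _
      rw [e]
      exact DPN_lt (DPN_cN9 _ _ _ hr)

theorem DPN_w (b : Bool) (r σ : ℕ) : wN b r σ ≤ 2 ^ 40 := by
  have h : ∀ x : ℕ, (962 * 10 ^ 9) / x + 1 ≤ 2 ^ 40 := by
    intro x
    have := Nat.div_le_self (962 * 10 ^ 9) x
    norm_num at this ⊢
    omega
  unfold wN
  split_ifs <;> exact h _

theorem DPN (h1 : KRN_stmt) : DPN_stmt := by
  intro b r hr4 hr9
  have hA : (if b = true then (PW (r - 1) * PZ') % Bs ^ 862 else PW r) = bld (cN b r) 862 := by
    cases b
    · simp only [Bool.false_eq_true, if_false]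
      exact DPN_PW h1 r hr9
    · simp only [if_true]
      obtain ⟨s, rfl⟩ : ∃ s, r = s + 1 := ⟨r - 1, by omega⟩
      have e : ∀ k, (∑ i ∈ range (k + 1), cN false s i * mI 30 101 (k - i)) = cN true (s + 1) k := by
        intro k
        have := DPN_conv true s k
        simpa using this
      rw [Nat.add_sub_cancel, DPN_PW h1 s (by omega), PZ', h1.1 (cN false s) (mI 30 101) 862]
      · simp only [e]
      · intro k _
        rw [e]
        exact DPN_lt (DPN_cN9 _ _ _ hr9)
  unfold cof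
  rw [hA, h1.2.2 (cN b r) (fun i => wN b r (861 - i)) 862 861 (by norm_num)]
  · refine Finset.sum_congr rfl fun i hi => ?_
    rw [Finset.mem_range] at hi
    have : 861 - (861 - i) = i := by omega
    simp only [this]
  · intro m hm
    have h2 : ∑ i ∈ range (m + 1), cN b r i * wN b r (861 - (m - i)) ≤ ∑ i ∈ range (m + 1), 2 ^ 279 * 2 ^ 40 :=
      Finset.sum_le_sum fun i _ => Nat.mul_le_mul (DPN_cN9 _ _ _ hr9) (DPN_w _ _ _)
    rw [Finset.sum_const, Finset.card_range, smul_eq_mul] at h2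
    have h3 : (m + 1) * (2 ^ 279 * 2 ^ 40) ≤ 2 ^ 10 * (2 ^ 279 * 2 ^ 40) :=
      Nat.mul_le_mul_right _ (by norm_num; omega)
    have h4 : 2 ^ 10 * (2 ^ 279 * 2 ^ 40) < Bs := by
      rw [DPN_Bs, ← pow_add, ← pow_add]
      exact Nat.pow_lt_pow_right (by norm_num) (by norm_num)
    exact lt_of_le_of_lt (h2.trans h3) h4

end Pool.Agent.EC
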