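import Pool.Agent.helper26.EC.SpecW

/-! # Project EC: row KRN (digits of products) -/

set_option autoImplicit false

namespace Pool.Agent.EC

open Finset

theorem KRN_pos : 0 < Bs := by unfold Bs; positivity

theorem KRN_bld (f : ℕ → ℕ) (n : ℕ) : bld f n = ∑ i ∈ range n, f i * Bs ^ i := by
  induction n with
  | zero => simp [bld]
  | succ n ih => rw [bld, Finset.sum_range_succ, ih]

theorem KRN_lt (f : ℕ → ℕ) (n : ℕ) (h : ∀ i < n, f i < Bs) : bld f n < Bs ^ n := by
  induction n with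
  | zero => simp [bld]
  | succ n ih =>
    have h1 := ih fun i hi => h i (by omega)
    have h2 : f n + 1 ≤ Bs := h n (by omega)
    have h3 : (f n + 1) * Bs ^ n ≤ Bs * Bs ^ n := Nat.mul_le_mul_right _ h2
    rw [bld, pow_succ]
    nlinarith

theorem KRN_split (f : ℕ → ℕ) (k d : ℕ) :
    ∃ q, bld f (k + 1 + d) = bld f k + Bs ^ k * (f k + Bs * q) := by
  induction d with
  | zero => exact ⟨0, by rw [add_zero, bld]; ring⟩
  | succ d ih =>
    obtain ⟨q, hq⟩ := ih
    refine ⟨q + f (k + 1 + d) * Bs ^ d, ?_⟩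
    rw [← add_assoc, bld, hq]
    have : Bs ^ (k + 1 + d) = Bs ^ k * (Bs * Bs ^ d) := by
      rw [pow_add, pow_succ]; ring
    rw [this]; ring

theorem KRN_mul (f g : ℕ → ℕ) (n : ℕ) :
    ∃ q, bld f n * bld g n = bld (fun k => ∑ i ∈ range (k + 1), f i * g (k - i)) n + Bs ^ n * q := by
  classical
  have h1 : bld f n * bld g n = ∑ x ∈ range n ×ˢ range n, f x.1 * Bs ^ x.1 * (g x.2 * Bs ^ x.2) := by
    rw [KRN_bld, KRN_bld, Finset.sum_mul_sum, Finset.sum_product]
  have h2 : bld (fun k => ∑ i ∈ range (k + 1), f i * g (k - i)) n =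
      ∑ x ∈ (range n ×ˢ range n) with x.1 + x.2 < n, f x.1 * Bs ^ x.1 * (g x.2 * Bs ^ x.2) := by
    rw [KRN_bld]
    simp only [Finset.sum_mul]
    rw [Finset.sum_sigma']
    refine Finset.sum_nbij' (fun y => (y.2, y.1 - y.2)) (fun x => ⟨x.1 + x.2, x.1⟩) ?_ ?_ ?_ ?_ ?_
    · rintro ⟨k, i⟩ h
      simp only [Finset.mem_sigma, Finset.mem_range, Finset.mem_filter, Finset.mem_product] at h ⊢
      omega
    · rintro ⟨i, j⟩ h
      simp only [Finset.mem_sigma, Finset.mem_range, Finset.mem_filter, Finset.mem_product] at h ⊢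
      omega
    · rintro ⟨k, i⟩ h
      simp only [Finset.mem_sigma, Finset.mem_range] at h
      simp only [Sigma.mk.injEq, heq_eq_eq, and_true]
      omega
    · rintro ⟨i, j⟩ h
      simp only [Prod.mk.injEq, true_and]
      omega
    · rintro ⟨k, i⟩ h
      simp only [Finset.mem_sigma, Finset.mem_range] at h
      have : Bs ^ k = Bs ^ i * Bs ^ (k - i) := by
        rw [← pow_add]; congr 1; omega
      simp only [this]; ring
  have h3 : Bs ^ n ∣ ∑ x ∈ (range n ×ˢ range n) with ¬ (x.1 + x.2 < n),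
      f x.1 * Bs ^ x.1 * (g x.2 * Bs ^ x.2) := by
    refine Finset.dvd_sum ?_
    rintro ⟨i, j⟩ h
    simp only [Finset.mem_filter, not_lt] at h
    have : Bs ^ n ∣ Bs ^ (i + j) := pow_dvd_pow _ h.2
    rw [pow_add] at this
    have h4 : f i * Bs ^ i * (g j * Bs ^ j) = (f i * g j) * (Bs ^ i * Bs ^ j) := by ring
    simp only
    rw [h4]
    exact this.mul_left _
  obtain ⟨q, hq⟩ := h3
  refine ⟨q, ?_⟩
  rw [h1, h2, ← hq, Finset.sum_filter_add_sum_filter_not]

theorem KRN : KRN_stmt := by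
  refine ⟨?_, ?_, ?_⟩
  · intro f g n h
    obtain ⟨q, hq⟩ := KRN_mul f g n
    rw [hq, Nat.add_mul_mod_self_left]
    exact Nat.mod_eq_of_lt (KRN_lt _ _ h)
  · intro f n k h hk
    obtain ⟨d, rfl⟩ : ∃ d, n = k + 1 + d := ⟨n - (k + 1), by omega⟩
    obtain ⟨q, hq⟩ := KRN_split f k d
    have h1 : bld f k < Bs ^ k := KRN_lt _ _ fun i hi => h i (by omega)
    rw [hq, Nat.add_mul_div_left _ _ (pow_pos KRN_pos k), Nat.div_eq_of_lt h1, zero_add,
      Nat.add_mul_mod_self_left]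
    exact Nat.mod_eq_of_lt (h k (by omega))
  · intro f g n k hk h
    obtain ⟨d, rfl⟩ : ∃ d, n = k + 1 + d := ⟨n - (k + 1), by omega⟩
    obtain ⟨q, hq⟩ := KRN_mul f g (k + 1 + d)
    obtain ⟨q', hq'⟩ := KRN_split (fun k => ∑ i ∈ range (k + 1), f i * g (k - i)) k d
    have h1 : bld (fun k => ∑ i ∈ range (k + 1), f i * g (k - i)) k < Bs ^ k :=
      KRN_lt _ _ fun i hi => h i (by omega)
    have h2 : Bs ^ (k + 1 + d) = Bs ^ k * (Bs * Bs ^ d) := by
      rw [pow_add, pow_succ]; ring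
    have h3 : bld f (k + 1 + d) * bld g (k + 1 + d) =
        bld (fun k => ∑ i ∈ range (k + 1), f i * g (k - i)) k +
          Bs ^ k * ((∑ i ∈ range (k + 1), f i * g (k - i)) + Bs * (q' + Bs ^ d * q)) := by
      rw [hq, hq', h2]; ring
    rw [h3, Nat.add_mul_div_left _ _ (pow_pos KRN_pos k), Nat.div_eq_of_lt h1, zero_add,
      Nat.add_mul_mod_self_left]
    exact Nat.mod_eq_of_lt (h k le_rfl)

end Pool.Agent.EC
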